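import Pool.Agent.helper17.EXC.Spec

set_option autoImplicit false

open Finset

namespace Pool.Agent.EXC

section
variable {n : ℕ} (C : Matrix (Fin n) (Fin n) ℤ) [IsC C] {F : Type} [Field F]

/-- the second identity for `a`, `v`, `w` -/
def STR_P (a v w : Lm C F) : Prop :=
  fm C a (br C v w) • a = fm C a v • br C a w - fm C a w • br C a v + br C (br C a v) (br C a w)

theorem STR_add_left (a v v' w : Lm C F) (h : STR_P C a v w) (h' : STR_P C a v' w) : STR_P C a (v + v') w := by
  unfold STR_P at *
  rw [br_add_left, fm_add_right, add_smul, h, h', fm_add_right, br_add_right, add_smul, smul_add, br_add_left]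
  abel

theorem STR_smul_left (a v w : Lm C F) (c : F) (h : STR_P C a v w) : STR_P C a (c • v) w := by
  unfold STR_P at *
  rw [br_smul_left, fm_smul_right, mul_smul, h, fm_smul_right, br_smul_right, br_smul_left, smul_add, smul_sub,
    mul_smul, smul_comm c (fm C a w)]

theorem STR_add_right (a v w w' : Lm C F) (h : STR_P C a v w) (h' : STR_P C a v w') : STR_P C a v (w + w') := by
  unfold STR_P at *
  rw [br_add_right, fm_add_right, add_smul, h, h', fm_add_right, br_add_right, add_smul, smul_add, br_add_right]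
  abel

theorem STR_smul_right (a v w : Lm C F) (c : F) (h : STR_P C a v w) : STR_P C a v (c • w) := by
  unfold STR_P at *
  rw [br_smul_right, fm_smul_right, mul_smul, h, fm_smul_right, br_smul_right, br_smul_right, smul_add, smul_sub,
    mul_smul, smul_comm c (fm C a v)]

/-- `E (α + β) = 0` if `(α, β) ≠ -1` -/
theorem STR_E0 {α β : Fin n → ℤ} (hα : ip C α α = 2) (hβ : ip C β β = 2) (h : ip C α β ≠ -1) :
    (E C (α + β) : Lm C F) = 0 :=
  E_eq_zero C fun h2 => h ((add_root_iff hα hβ).1 h2)

/-- the bracket vanishes if `(α, β) ≠ -1, -2` -/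
theorem STR_br0 {α β : Fin n → ℤ} (hα : ip C α α = 2) (hβ : ip C β β = 2) (h : 0 ≤ ip C α β) :
    br C (E C α) (E C β) = (0 : Lm C F) := by
  rw [br_E_E C hα hβ, STR_E0 C hα hβ (by omega), smul_zero, if_neg, sub_zero]
  rintro rfl
  rw [ip_neg_right, hα] at h
  omega

theorem STR_brneg {α : Fin n → ℤ} (hα : ip C α α = 2) : br C (E C α) (E C (-α)) = (-ht C α : Lm C F) := by
  rw [br_E_E C hα (neg_root C hα), if_pos rfl, STR_E0 C hα (neg_root C hα) (by rw [ip_neg_right, hα]; norm_num),
    smul_zero, zero_sub]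

theorem STR_brne {α β : Fin n → ℤ} (hα : ip C α α = 2) (hβ : ip C β β = 2) (h : β ≠ -α) :
    br C (E C α) (E C β) = (sg C α β : F) • (E C (α + β) : Lm C F) := by
  rw [br_E_E C hα hβ, if_neg h, sub_zero]

theorem STR_bht {α β : Fin n → ℤ} (hβ : ip C β β = 2) : br C (ht C α) (E C β) = (ip C β α : F) • (E C β : Lm C F) := by
  unfold ht
  rw [br_H_E C hβ, ev_coroot]

theorem STR_bth {α β : Fin n → ℤ} (hβ : ip C β β = 2) : br C (E C β) (ht C α) = -(ip C β α : F) • (E C β : Lm C F) := by
  unfold ht
  rw [br_E_H C hβ, ev_coroot]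

theorem STR_fht {α β : Fin n → ℤ} (hα : ip C α α = 2) : fm C (E C α) (ht C β : Lm C F) = 0 := by
  unfold ht
  rw [fm_E_H C hα]

/-- `[E α, E α] = 0` -/
theorem STR_aa {α : Fin n → ℤ} (hα : ip C α α = 2) : br C (E C α) (E C α) = (0 : Lm C F) :=
  STR_br0 C hα hα (by omega)

theorem STR_HH {α : Fin n → ℤ} (hα : ip C α α = 2) (h h' : Fin n → F) : STR_P C (E C α) (h, 0) (h', 0) := by
  unfold STR_P
  rw [br_H_H, fm_zero_right, zero_smul, fm_E_H C hα, fm_E_H C hα, zero_smul, zero_smul, br_E_H C hα, br_E_H C hα,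
    br_smul_left, br_smul_right, STR_aa C hα]
  simp

theorem STR_EH {α β : Fin n → ℤ} (hα : ip C α α = 2) (hβ : ip C β β = 2) (h : Fin n → F) :
    STR_P C (E C α) (E C β) (h, 0) := by
  unfold STR_P
  rw [br_E_H C hβ, fm_smul_right, fm_E_E C hα hβ, fm_E_H C hα, zero_smul, br_E_H C hα, br_smul_right]
  by_cases hb : β = -α
  · subst hb
    rw [if_pos rfl, STR_brneg C hα, br_neg_left, STR_bht C hα, hα, ev_neg_left, ← sub_eq_zero]
    simp only [smul_neg, smul_smul, sub_zero, neg_neg, mul_one, one_mul, neg_mul, mul_neg, neg_smul, Int.cast_ofNat]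
    module
  · rw [if_neg hb, STR_brne C hα hβ hb, mul_zero, zero_smul, zero_smul, sub_zero, zero_add]
    by_cases h1 : ip C α β = -1
    · have h2 : ip C (α + β) (α + β) = 2 := (add_root_iff hα hβ).2 h1
      rw [br_smul_left, STR_br0 C h2 hα (by rw [ip_add_left, hα, ip_comm C β α, h1]; norm_num), smul_zero, smul_zero]
    · rw [STR_E0 C hα hβ h1, smul_zero, br_zero_left, smul_zero]

theorem STR_HE {α γ : Fin n → ℤ} (hα : ip C α α = 2) (hγ : ip C γ γ = 2) (h : Fin n → F) :
    STR_P C (E C α) (h, 0) (E C γ) := by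
  unfold STR_P
  rw [br_H_E C hγ, fm_smul_right, fm_E_E C hα hγ, fm_E_H C hα, zero_smul, br_E_H C hα, br_smul_left]
  by_cases hc : γ = -α
  · subst hc
    rw [if_pos rfl, STR_brneg C hα, br_neg_right, STR_bth C hα, hα, ev_neg_left, ← sub_eq_zero]
    simp only [smul_neg, smul_smul, sub_zero, neg_neg, mul_one, one_mul, neg_mul, mul_neg, neg_smul, Int.cast_ofNat]
    module
  · rw [if_neg hc, STR_brne C hα hγ hc, mul_zero, zero_smul, zero_smul, sub_zero, zero_add]
    by_cases h1 : ip C α γ = -1
    · have h2 : ip C (α + γ) (α + γ) = 2 := (add_root_iff hα hγ).2 h1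
      rw [br_smul_right, STR_br0 C hα h2 (by rw [ip_add_right, hα, h1]; norm_num), smul_zero, smul_zero]
    · rw [STR_E0 C hα hγ h1, smul_zero, br_zero_right, smul_zero]

/-- the left side for two root vectors -/
theorem STR_left {α β γ : Fin n → ℤ} (hα : ip C α α = 2) (hβ : ip C β β = 2) (hγ : ip C γ γ = 2) :
    fm C (E C α) (br C (E C β) (E C γ) : Lm C F) = if β + γ = -α then (sg C β γ : F) else 0 := by
  rw [br_E_E C hβ hγ, fm_sub_right, fm_smul_right]
  have h0 : fm C (E C α) (if γ = -β then ht C β else 0 : Lm C F) = 0 := by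
    split_ifs
    · exact STR_fht C hα
    · exact fm_zero_right C _
  rw [h0, sub_zero]
  by_cases h : ip C (β + γ) (β + γ) = 2
  · rw [fm_E_E C hα h]
    split_ifs
    · rw [mul_one]
    · rw [mul_zero]
  · rw [E_eq_zero C h, fm_zero_right, mul_zero, if_neg]
    intro h1
    apply h
    rw [h1]
    exact neg_root C hα

theorem STR_EE {α β γ : Fin n → ℤ} (hα : ip C α α = 2) (hβ : ip C β β = 2) (hγ : ip C γ γ = 2) :
    STR_P C (E C α) (E C β) (E C γ : Lm C F) := by
  have hne0 : ∀ δ : Fin n → ℤ, ip C δ δ = 2 → δ ≠ 0 := by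
    rintro δ h rfl
    rw [ip_zero_left] at h
    omega
  unfold STR_P
  rw [STR_left C hα hβ hγ, fm_E_E C hα hβ, fm_E_E C hα hγ]
  by_cases hb : β = -α
  · subst hb
    have hl : ¬ (-α + γ = -α) := fun h => hne0 γ hγ (by simpa using h)
    rw [if_neg hl, if_pos rfl, zero_smul, one_smul, STR_brneg C hα]
    by_cases hc : γ = -α
    · subst hc
      rw [if_pos rfl, one_smul, STR_brneg C hα, sub_self, zero_add, br_neg_left, br_neg_right]
      unfold ht
      rw [br_H_H, neg_zero, neg_zero]
    · rw [if_neg hc, zero_smul, sub_zero, STR_brne C hα hγ hc]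
      by_cases h1 : ip C α γ = -1
      · have h2 : ip C (α + γ) (α + γ) = 2 := (add_root_iff hα hγ).2 h1
        rw [br_neg_left, br_smul_right, STR_bht C h2, ip_add_left, hα, ip_comm C γ α, h1]
        norm_num
      · rw [STR_E0 C hα hγ h1, smul_zero, br_zero_right, add_zero]
  · by_cases hc : γ = -α
    · subst hc
      have hl : ¬ (β + -α = -α) := fun h => hne0 β hβ (by simpa using h)
      rw [if_neg hl, if_neg hb, if_pos rfl, zero_smul, zero_smul, one_smul, STR_brneg C hα, STR_brne C hα hβ hb]
      by_cases h1 : ip C α β = -1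
      · have h2 : ip C (α + β) (α + β) = 2 := (add_root_iff hα hβ).2 h1
        rw [br_neg_right, br_smul_left, STR_bth C h2, ip_add_left, hα, ip_comm C β α, h1]
        norm_num
      · rw [STR_E0 C hα hβ h1, smul_zero, br_zero_left, add_zero, sub_zero]
    · rw [if_neg hb, if_neg hc, zero_smul, zero_smul, sub_zero, zero_add, STR_brne C hα hβ hb, STR_brne C hα hγ hc]
      have hp : ip C α β ≠ -2 := fun h => hb (eq_neg_of_ip_eq_neg_two hα hβ h)
      have hq : ip C α γ ≠ -2 := fun h => hc (eq_neg_of_ip_eq_neg_two hα hγ h)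
      have hp2 := (ip_abs_le hα hβ).1
      have hq2 := (ip_abs_le hα hγ).1
      by_cases h1 : ip C α β = -1 ∧ ip C α γ = -1
      · obtain ⟨h1, h2⟩ := h1
        have r1 : ip C (α + β) (α + β) = 2 := (add_root_iff hα hβ).2 h1
        have r2 : ip C (α + γ) (α + γ) = 2 := (add_root_iff hα hγ).2 h2
        have hs : ip C (α + β) (α + γ) = ip C β γ := by
          rw [ip_add_left, ip_add_right, ip_add_right, hα, h2, ip_comm C β α, h1]
          ring
        have hnn : α + γ ≠ -(α + β) := by
          intro h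
          have h3 : ip C α (α + γ) = ip C α (-(α + β)) := by rw [h]
          rw [ip_neg_right, ip_add_right, ip_add_right, hα, h1, h2] at h3
          omega
        rw [br_smul_left, br_smul_right, STR_brne C r1 r2 hnn]
        by_cases h3 : ip C β γ = -1
        · have r3 : ip C (β + γ) (β + γ) = 2 := (add_root_iff hβ hγ).2 h3
          have h4 : β + γ = -α := eq_neg_of_ip_eq_neg_two hα r3 (by rw [ip_add_right, h1, h2]; norm_num)
          have h5 : α + β + (α + γ) = α := by
            have : α + β + (α + γ) = α + α + (β + γ) := by abel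
            rw [this, h4]
            abel
          rw [if_pos h4, h5, smul_smul, smul_smul]
          congr 1
          rw [sg_add_left, sg_add_right, sg_add_right, sg_self C hα,
            sg_comm_odd C α β (by rw [h1]; decide)]
          push_cast
          have e1 := sg_sq (F := F) C α β
          have e2 := sg_sq (F := F) C α γ
          calc (sg C β γ : F) = (sg C α β : F) * sg C α β * ((sg C α γ : F) * sg C α γ) * sg C β γ := by
                rw [e1, e2]; ring
            _ = _ := by ring
        · rw [STR_E0 C r1 r2 (by rw [hs]; exact h3), smul_zero, smul_zero, smul_zero, if_neg, zero_smul]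
          intro h4
          apply h3
          rw [← add_root_iff hβ hγ, h4]
          exact neg_root C hα
      · have hl : ¬ (β + γ = -α) := by
          intro h
          have h3 : ip C α (β + γ) = ip C α (-α) := by rw [h]
          rw [ip_neg_right, ip_add_right, hα] at h3
          apply h1
          constructor <;> omega
        rw [if_neg hl, zero_smul]
        by_cases h2 : ip C α β = -1
        · have h3 : ip C α γ ≠ -1 := fun h => h1 ⟨h2, h⟩
          rw [STR_E0 C hα hγ h3, smul_zero, br_zero_right]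
        · rw [STR_E0 C hα hβ h2, smul_zero, br_zero_left]

end

theorem STR : STR_stmt := by
  intro n C _ F _ α hα v w
  change STR_P C (E C α) v w
  refine Lm_ind C (P := fun v => STR_P C (E C α) v w) ?_ ?_ ?_ ?_ v
  · intro x y hx hy
    exact STR_add_left C _ _ _ _ hx hy
  · intro c x hx
    exact STR_smul_left C _ _ _ c hx
  · intro β hβ
    refine Lm_ind C (P := fun w => STR_P C (E C α) (E C β) w) ?_ ?_ ?_ ?_ w
    · intro x y hx hy
      exact STR_add_right C _ _ _ _ hx hy
    · intro c x hx
      exact STR_smul_right C _ _ _ c hx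
    · intro γ hγ
      exact STR_EE C hα hβ hγ
    · intro h
      exact STR_EH C hα hβ h
  · intro h
    refine Lm_ind C (P := fun w => STR_P C (E C α) (h, 0) w) ?_ ?_ ?_ ?_ w
    · intro x y hx hy
      exact STR_add_right C _ _ _ _ hx hy
    · intro c x hx
      exact STR_smul_right C _ _ _ c hx
    · intro γ hγ
      exact STR_HE C hα hγ h
    · intro h'
      exact STR_HH C hα h h'

end Pool.Agent.EXC
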