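import Pool.Agent.helper17.EXC.SpecRA

set_option autoImplicit false

open Finset

open scoped Pointwise

namespace Pool.Agent.EXC

theorem ARA_syl {G : Type} [Group G] [Finite G] {p : ℕ} [Fact p.Prime] (P : Sylow p G) (x : MulAut G) :
    ∃ g : G, ∀ z, z ∈ (P : Subgroup G) ↔ (MulAut.conj g⁻¹ * x) z ∈ (P : Subgroup G) := by
  obtain ⟨g, hg⟩ := MulAction.exists_smul_eq G P (x • P)
  refine ⟨g, fun z => ?_⟩
  have h1 : (x • (P : Subgroup G)) = MulAut.conj g • (P : Subgroup G) := by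
    have h2 := congrArg (fun Q : Sylow p G => (Q : Subgroup G)) hg
    exact h2.symm
  have h3 : x • z ∈ x • (P : Subgroup G) ↔ z ∈ (P : Subgroup G) := Subgroup.smul_mem_pointwise_smul_iff
  rw [h1, Subgroup.mem_pointwise_smul_iff_inv_smul_mem, ← map_inv] at h3
  exact h3.symm

theorem ARA_cen {G : Type} [Group G] (P : Subgroup G) (Z : G → Prop)
    (hZ : ∀ h, Z h ↔ h ∈ P ∧ ∀ k ∈ P, k * h = h * k) (φ : MulAut G) (hφ : ∀ z, z ∈ P ↔ φ z ∈ P) (h : G) :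
    Z h ↔ Z (φ h) := by
  rw [hZ, hZ, ← hφ]
  refine and_congr_right fun _ => ⟨fun hk k hkP => ?_, fun hk k hkP => ?_⟩
  · have h1 : φ (φ⁻¹ k) = k := φ.apply_symm_apply k
    have h2 : φ⁻¹ k ∈ P := by
      rw [hφ, h1]
      exact hkP
    have h3 := hk _ h2
    rw [← h1, ← map_mul, h3, map_mul]
  · have h1 := hk (φ k) ((hφ k).1 hkP)
    rw [← map_mul, ← map_mul] at h1
    exact φ.injective h1

section

variable {n : ℕ} {C : Matrix (Fin n) (Fin n) ℤ} [IsC C] {F : Type} [Field F]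

theorem ARA_xe (c t : F) (a v : Lm C F) : xe C (c • a) t v = xe C a (c * t) v := by
  unfold xe
  rw [br_smul_left, fm_smul_left, smul_smul, smul_smul]
  have h1 : t ^ 2 * (c * fm C a v) * c = (c * t) ^ 2 * fm C a v := by ring
  rw [h1, mul_comm t c]

theorem ARA_tr {a b : Lm C F} {c : F} {k : Lm C F ≃ₗ[F] Lm C F}
    (hk : ∀ t h, IsX C a t h → IsX C (k a) t (k * h * k⁻¹)) (hab : k a = c • b) {t : F}
    {h : Lm C F ≃ₗ[F] Lm C F} (hh : IsX C a t h) : IsX C b (c * t) (k * h * k⁻¹) := by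
  intro v
  have h1 := hk t h hh v
  rw [h1, hab, ARA_xe]

end

theorem ARA (hUPG : UPG_stmt) (hSYL : SYL_stmt) (hCUX : CUX_stmt) (hEXF : EXF_stmt) (hDMN : DMN_stmt)
    (hNBR : NBR_stmt) (hWPG : WPG_stmt) : ARA_stmt := by
  intro n C _ F _ _ j0 θ δ hE x
  have hβ := (hNBR n C j0 θ δ hE).1
  obtain ⟨hAu, hExE, hExP, -⟩ := hEXF n C F hβ
  obtain ⟨p, hp⟩ := CharP.exists F
  have hpr : p.Prime := CharP.char_is_prime F p
  have : Fact p.Prime := ⟨hpr⟩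
  have : Finite (Lm C F ≃ₗ[F] Lm C F) :=
    Finite.of_injective (fun g : Lm C F ≃ₗ[F] Lm C F => (g : Lm C F → Lm C F)) DFunLike.coe_injective
  have hUGE : UG C F ≤ GE C F := by
    refine Subgroup.closure_mono ?_
    rintro g ⟨γ, hγ, -, t, ht⟩
    exact ⟨γ, hγ, t, ht⟩
  -- the `p`-group `U`
  have hU : IsPGroup p ((UG C F).subgroupOf (GE C F)) := by
    intro u
    obtain ⟨k, hk⟩ := hUPG n C F p hpr hp ((u : EG C F) : Lm C F ≃ₗ[F] Lm C F) u.2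
    refine ⟨k, ?_⟩
    apply Subtype.ext
    apply Subtype.ext
    push_cast
    exact hk
  obtain ⟨P, hP⟩ := hU.exists_le_sylow
  have hUP : ∀ g : EG C F, (g : Lm C F ≃ₗ[F] Lm C F) ∈ UG C F → g ∈ (P : Subgroup (EG C F)) := fun g hg => hP hg
  have hfix := hSYL n C F j0 θ δ hE p hpr hp P P.2 hUP
  obtain ⟨hθpos, -⟩ := hDMN n C j0 θ δ hE
  obtain ⟨-, -, -, -, -, -, -, hcj, -⟩ := hExP (E C θ) (hExE θ hE.th2)
  have hZ : ∀ h : EG C F, (∃ t, IsX C (E C θ) t (h : Lm C F ≃ₗ[F] Lm C F)) ↔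
      h ∈ (P : Subgroup (EG C F)) ∧ ∀ k ∈ (P : Subgroup (EG C F)), k * h = h * k := by
    intro h
    constructor
    · rintro ⟨t, ht⟩
      refine ⟨hUP h (Subgroup.subset_closure ⟨θ, hE.th2, hθpos, t, ht⟩), fun k hk => ?_⟩
      have h1 := hcj k k.2 t h ht
      rw [hfix k hk] at h1
      have h2 : (k : Lm C F ≃ₗ[F] Lm C F) * h * (k : Lm C F ≃ₗ[F] Lm C F)⁻¹ = h :=
        LinearEquiv.ext fun v => (h1 v).trans (ht v).symm
      apply Subtype.ext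
      push_cast
      exact mul_inv_eq_iff_eq_mul.1 h2
    · rintro ⟨-, hk⟩
      refine hCUX n C F j0 θ δ hE h h.2 fun u hu => ?_
      have h1 := hk ⟨u, hUGE hu⟩ (hUP _ hu)
      exact congrArg (fun y : EG C F => (y : Lm C F ≃ₗ[F] Lm C F)) h1
  obtain ⟨g, hg⟩ := ARA_syl P x
  have hZφ := ARA_cen (P : Subgroup (EG C F)) _ hZ (MulAut.conj g⁻¹ * x) hg
  intro A hA
  obtain ⟨g₁, α, hα, hA⟩ := hA
  obtain ⟨β', -, hWP⟩ := (hNBR n C j0 θ δ hE).2 α θ α hα hE.th2 hα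
  obtain ⟨k, hk, s, -, hs, -, hkα, -⟩ := hWPG n C F hβ α α θ β' hα hα hWP
  have hss : (s : F) * (s : F) = 1 := by
    rcases hs with h | h <;> rw [h] <;> simp
  have hkθ : k⁻¹ (E C θ) = (s : F) • (E C α : Lm C F) := by
    have h1 : k ((s : F) • (E C α : Lm C F)) = E C θ := by
      rw [map_smul, hkα, smul_smul, hss, one_smul]
    rw [← h1]
    exact k.symm_apply_apply _
  have hcα : ∀ t h, IsX C (E C α : Lm C F) t h → IsX C (k (E C α)) t (k * h * k⁻¹) :=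
    fun t h hh => (hExP (E C α) (hExE α hα)).2.2.2.2.2.2.2.1 k hk t h hh
  have hcθ : ∀ t h, IsX C (E C θ : Lm C F) t h → IsX C (k⁻¹ (E C θ)) t (k⁻¹ * h * k⁻¹⁻¹) :=
    fun t h hh => hcj k⁻¹ ((GE C F).inv_mem hk) t h hh
  have htr : ∀ h : Lm C F ≃ₗ[F] Lm C F, (∃ t, IsX C (E C α) t h) ↔ ∃ t, IsX C (E C θ) t (k * h * k⁻¹) := by
    intro h
    constructor
    · rintro ⟨t, ht⟩
      exact ⟨_, ARA_tr hcα hkα ht⟩
    · rintro ⟨t, ht⟩
      have h1 := ARA_tr hcθ hkθ ht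
      have h2 : k⁻¹ * (k * h * k⁻¹) * k⁻¹⁻¹ = h := by group
      rw [h2] at h1
      exact ⟨_, h1⟩
  obtain ⟨m, hm⟩ : ∃ m : EG C F, m = g₁ * (⟨k, hk⟩ : EG C F)⁻¹ := ⟨_, rfl⟩
  have hA' : ∀ h : EG C F, h ∈ A ↔ ∃ t, IsX C (E C θ) t ((m⁻¹ * h * m : EG C F) : Lm C F ≃ₗ[F] Lm C F) := by
    intro h
    rw [hA h, htr]
    have h1 : k * ((g₁⁻¹ * h * g₁ : EG C F) : Lm C F ≃ₗ[F] Lm C F) * k⁻¹ =
        ((m⁻¹ * h * m : EG C F) : Lm C F ≃ₗ[F] Lm C F) := by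
      rw [hm]
      push_cast
      group
    rw [h1]
  refine ⟨x m * g, θ, hE.th2, fun y => ?_⟩
  have h1 : y ∈ A.map x.toMonoidHom ↔ x⁻¹ y ∈ A := by
    constructor
    · rintro ⟨z, hz, rfl⟩
      have h2 : x⁻¹ (x.toMonoidHom z) = z := x.symm_apply_apply z
      rw [h2]
      exact hz
    · intro h
      exact ⟨x⁻¹ y, h, x.apply_symm_apply y⟩
  have h5 : x (x⁻¹ y) = y := x.apply_symm_apply y
  have h6 : (MulAut.conj g⁻¹ * x) (m⁻¹ * x⁻¹ y * m) = (x m * g)⁻¹ * y * (x m * g) := by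
    rw [MulAut.mul_apply, MulAut.conj_apply, map_mul, map_mul, map_inv, h5]
    group
  rw [h1, hA', hZφ, h6]

end Pool.Agent.EXC
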